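import Pool.Agent.Helper29_LRN.PRI

/-!
# Leopoldt's conjecture for one hundred percent of the number fields

Fix a signature `(r₁, r₂)` with `r₁ + r₂ ≥ 3` (for fewer places the unit rank is at most one and the
conjecture is easy); put `n = r₁ + 2 r₂` and `r = r₁ + r₂ - 1 ≥ 2`, the degree and the unit rank.
Number fields are subfields of `ℂ`.

THE FAMILY. `NonCM r₁ r₂` is the set of the number fields `K` with this signature which are not CM
fields, in the form: every proper subfield of `K` has a smaller unit rank. `Flds r₁ r₂ X` is the set
of those `K` in it which have `r` multiplicatively independent units with all conjugates of absolute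
value at most `X`, or which have regulator at most `(log X) ^ r` and only proper subfields with
finite unit groups (for example all primitive fields of small regulator). So the fields are ordered
by the size of their units, respectively by the regulator. Each of these sets is finite, and every
field in `NonCM r₁ r₂` belongs to `Flds r₁ r₂ X` for all large `X`.

THE THEOREM. For large `X` there are at least `X ^ ((n + 1) / 2 - ε)` fields in `NonCM r₁ r₂` with `r`
independent units of size at most `X`, and at least `X ^ c` of them are primitive and have regulator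
at most `(log X) ^ r`. There is a function `P(X) → ∞` such that, for every `ε > 0`:

(a) at most `C X ^ ε` fields in `Flds r₁ r₂ X` are minimal counterexamples to Leopoldt's conjecture
at some prime `p ≤ P(X)` (the conjecture fails for `K` at `p` and holds at `p` for all proper
subfields of unit rank at least two; for all other proper subfields it holds anyway). If `n` is a
prime, `n = 4` or `r = 2`, this is a bound for all counterexamples, and for every signature it is a
bound for all primitive counterexamples. In other words: for one hundred percent of all non-CM number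
fields of every signature the conjecture at the primes `p ≤ P(X)` is equivalent to the conjecture at
`p` for the proper subfields.

(b) at most `C X ^ (n / 2 + ε)` fields in `Flds r₁ r₂ X` violate the conjecture at some prime
`p ≤ P(X)` at which it holds for their subfields of index at least three and unit rank at least two.
If `n ≤ 8`, or `n` is a prime or twice a prime, this is a bound for ALL counterexamples, and by the
lower bound the conjecture holds for one hundred percent of all non-CM number fields of the
signature at all primes `p ≤ P(X)`.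

(c) Without any condition on the subfields, and for all number fields of degree `n` (CM fields and
fields with many subfields included) with a full system of independent units of size at most `X`:
all counterexamples at the primes `p ≤ P(X)` come from a set `S(X)` of at most `C X ^ ε` fields: every
such counterexample `K` contains a field `E ∈ S(X)` for which the conjecture fails at the same `p`.

`LeopoldtAt K p` (file `Pool/Agent/Helper85_Leo/Defs.lean`) is the statement of the frozen statement
S17123 for the fixed field `K` and the fixed prime `p`.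

THE PROOF. A unit `u` of `K` is NEW if its norm to every proper subfield is a root of unity. If `K`
is a minimal counterexample at `p`, the `p`-adic logarithms of a maximal independent system of new
units are dependent (take norms to the subfields). A new unit of infinite order generates `K`. The
coefficients of the minimal polynomials of the new units `u i` and the traces of the products
`u i ^ a * u j ^ b` are the coordinates of an integral point of size `X ^ O(1)` in a fixed affine
space. In each residue class modulo `p ^ 3` the Gram determinant of the `p`-adic logarithms is ONE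
power series `F` over `ℤ_p` in these coordinates. By a `p`-adic theorem of the kind of Pila and
Wilkie's all but `C X ^ ε` of the integral zeros of `F` lie on algebraic arcs on which `F` vanishes
identically. Such an arc carries boundedly many fields: by the theorem of Kolchin and Ostrowski the
relations between the logarithms along the arc are explained by multiplicative relations between the
units; let `B` be the field of the constants, normal over `ℚ`. If `K` is not contained in `B`, the
norms of the new units to `K ∩ B` are roots of unity, so the real logarithms of the new units satisfy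
these relations too, and their real Gram determinant would vanish, which contradicts the
independence of the units. The orders: short units give short new units by a polynomial in the sum
of the norm operators; fields of small regulator have one very short unit or short independent
units. In (b) a quadratic extension `K = E(u)` of a given field `E` is counted by the equation
`u ^ 2 - a u + b = 0`; the lower bound comes from the fields of the roots of
`∏ (x - a_i) ∏ ((x - b_j) ^ 2 + c_j) = 1`.
-/

set_option autoImplicit false

open NumberField Filter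
open Pool.Agent.Helper85_Leo (LeopoldtAt)

namespace Pool.Agent.Results.MP_5f2860_nt.AllFields

/-- The number fields inside `ℂ` with `r₁` real and `r₂` complex places in which every proper
subfield has a smaller unit rank (they are not CM fields). -/
def NonCM (r₁ r₂ : ℕ) : Set (IntermediateField ℚ ℂ) :=
  {K | ∃ _ : NumberField K, InfinitePlace.nrRealPlaces K = r₁ ∧
    InfinitePlace.nrComplexPlaces K = r₂ ∧
    ∀ E : IntermediateField ℚ K, E ≠ ⊤ → Units.rank E < Units.rank K}

/-- The number fields inside `ℂ` which have a full system of multiplicatively independent units with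
all conjugates of absolute value at most `X`. -/
def ShortUnits (X : ℝ) : Set (IntermediateField ℚ ℂ) :=
  {K | ∃ _ : NumberField K, ∃ u : Fin (Units.rank K) → (𝓞 K)ˣ,
    (∀ c : Fin (Units.rank K) → ℤ, ∏ i, u i ^ c i = 1 → c = 0) ∧
    ∀ i, ∀ σ : K →+* ℂ, ‖σ ((u i : 𝓞 K) : K)‖ ≤ X}

/-- The number fields inside `ℂ` of regulator at most `T` all of whose proper subfields have finite
unit groups. -/
def SmallReg (T : ℝ) : Set (IntermediateField ℚ ℂ) :=
  {K | ∃ _ : NumberField K, Units.regulator K ≤ T ∧
    ∀ E : IntermediateField ℚ K, E ≠ ⊤ → Units.rank E = 0}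

/-- The primitive fields: there is no field strictly between `ℚ` and `K`. -/
def Prim : Set (IntermediateField ℚ ℂ) :=
  {K | ∀ E : IntermediateField ℚ K, E = ⊥ ∨ E = ⊤}

/-- The fields of the theorem. -/
def Flds (r₁ r₂ : ℕ) (X : ℝ) : Set (IntermediateField ℚ ℂ) :=
  {K | K ∈ NonCM r₁ r₂ ∧ (K ∈ ShortUnits X ∨ K ∈ SmallReg (Real.log X ^ (r₁ + r₂ - 1)))}

/-- The number fields inside `ℂ` for which Leopoldt's conjecture fails at the prime `p`. -/
def Fails (p : ℕ) : Set (IntermediateField ℚ ℂ) :=
  {K | ∃ (_ : Fact p.Prime) (_ : NumberField K), ¬ LeopoldtAt K p}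

/-- The conjecture fails for `K` at `p` and holds at `p` for the proper subfields of unit rank at
least two. -/
def MinFails (p : ℕ) : Set (IntermediateField ℚ ℂ) :=
  {K | ∃ (_ : Fact p.Prime) (_ : NumberField K), ¬ LeopoldtAt K p ∧
    ∀ E : IntermediateField ℚ K, E ≠ ⊤ → 2 ≤ Units.rank E → LeopoldtAt E p}

/-- The conjecture fails for `K` at `p` and holds at `p` for the subfields of index at least three and
unit rank at least two. -/
def MinFails3 (p : ℕ) : Set (IntermediateField ℚ ℂ) :=
  {K | ∃ (_ : Fact p.Prime) (_ : NumberField K), ¬ LeopoldtAt K p ∧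
    ∀ E : IntermediateField ℚ K, 3 ≤ Module.finrank E K → 2 ≤ Units.rank E → LeopoldtAt E p}

theorem result (r₁ r₂ : ℕ) (h : 3 ≤ r₁ + r₂) :
    -- the sets are finite and exhaust the non-CM fields
    (∀ X : ℝ, (Flds r₁ r₂ X).Finite) ∧
    (∀ K ∈ NonCM r₁ r₂, ∃ X₀ : ℝ, ∀ X : ℝ, X₀ ≤ X → K ∈ Flds r₁ r₂ X) ∧
    -- the lower bounds
    (∀ ε : ℝ, 0 < ε → ∃ X₀ : ℝ, ∀ X : ℝ, X₀ ≤ X →
      X ^ (((r₁ : ℝ) + 2 * r₂ + 1) / 2 - ε) ≤ ((NonCM r₁ r₂ ∩ ShortUnits X).ncard : ℝ)) ∧
    (∃ c X₀ : ℝ, 0 < c ∧ ∀ X : ℝ, X₀ ≤ X → X ^ c ≤
      ((NonCM r₁ r₂ ∩ ShortUnits X ∩ SmallReg (Real.log X ^ (r₁ + r₂ - 1)) ∩ Prim).ncard : ℝ)) ∧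
    -- the counterexamples at the primes up to `P X`
    (∃ (P : ℝ → ℕ) (S : ℝ → Set (IntermediateField ℚ ℂ)), Tendsto P atTop atTop ∧
      (∀ X : ℝ, 1 ≤ X → ∀ K ∈ ShortUnits X, Module.finrank ℚ K = r₁ + 2 * r₂ →
        ∀ p ≤ P X, K ∈ Fails p → ∃ E ∈ S X, E ≤ K ∧ E ∈ Fails p) ∧
      ∀ ε : ℝ, 0 < ε → ∃ C : ℝ, ∀ X : ℝ, 1 ≤ X →
        (S X).Finite ∧ ((S X).ncard : ℝ) ≤ C * X ^ ε ∧
        ({K | K ∈ Flds r₁ r₂ X ∧ ∃ p ≤ P X, K ∈ MinFails p}.ncard : ℝ) ≤ C * X ^ ε ∧
        ({K | K ∈ Flds r₁ r₂ X ∧ ∃ p ≤ P X, K ∈ MinFails3 p}.ncard : ℝ) ≤
          C * X ^ (((r₁ : ℝ) + 2 * r₂) / 2 + ε)) ∧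
    -- the cases without a condition on the subfields
    (∀ p, ∀ K ∈ Prim, K ∈ Fails p → K ∈ MinFails p) ∧
    (r₁ + 2 * r₂ = 4 ∨ (r₁ + 2 * r₂).Prime ∨ r₁ + r₂ = 3 →
      ∀ p, ∀ K ∈ NonCM r₁ r₂, K ∈ Fails p → K ∈ MinFails p) ∧
    (r₁ + 2 * r₂ ≤ 8 ∨ (r₁ + 2 * r₂).Prime ∨ (∃ q : ℕ, q.Prime ∧ r₁ + 2 * r₂ = 2 * q) →
      ∀ p, ∀ K ∈ NonCM r₁ r₂, K ∈ Fails p → K ∈ MinFails3 p) :=
  have f := Pool.Agent.LRN.H29.finalAll r₁ r₂ h
  ⟨f.1, f.2.1, f.2.2.1, f.2.2.2.1, f.2.2.2.2.1, Pool.Agent.LRN.H29.prim_min, f.2.2.2.2.2.1,
    f.2.2.2.2.2.2⟩

end Pool.Agent.Results.MP_5f2860_nt.AllFields
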