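import Pool.Agent.Helper42_LPW.FinalInd
import Pool.Agent.Helper42_LUB.Box

/-!
# Few exceptions to Leopoldt's conjecture in families with any number of parameters

Fix a prime `p`. `LeopoldtAt K p` (file `Pool/Agent/Helper85_Leo/Defs.lean`) is the statement of the
frozen statement S17123 for the fixed field `K` and the fixed prime `p`.

(1) Families `f(P, Y)`, monic of degree `n` in `Y`, with `k ≥ 1` parameters `P = (P₁, ..., P_k)` and
with units `u i (P, θ)`, `i < r`. `ExcPt p n F U` (file `Pool/Agent/LPW/Defs.lean`): Leopoldt's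
conjecture fails at `p` for some number field `K = ℚ(θ)` with `F(θ) = 0`, of degree `n` and unit rank
at most `r`, in which the `U i (θ)` are units. `IndOn f u A` (file
`Pool/Agent/Helper42_LPW/General.lean`): on every line through a point of `A` (in a direction in
the plane of the first two coordinates) the units are multiplicatively independent modulo
constants. The theorem: a cube of side `N` contains at most `B N ^ e` exceptional points of `A`,
where `e = 0` for `k = 1` and `e = k - 3/2 + ε` for `k ≥ 2`, and `B` only depends on `p`, `n`, `r`,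
`k`, `ε` and the degrees, NOT on the coefficients.

Two cases in which the condition on the units is verified:

(2) For the families `P - t Q` the number of the exceptions is bounded by a constant which only
depends on `p` and the degree of `P`.

(3) In the family with all coefficients as parameters, for every signature with `r₁ + r₂ ≥ 3`: in a
box with all sides at least `M` the proportion of the exceptional vectors is at most
`B / M ^ (3/2 - ε)`.

The proof of (1): for `k = 1` all pairs (family, residue class of the parameter) fall into finitely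
many classes modulo `p ^ 3`. Over one class the regulators are the specializations of one power
series over the noetherian ring of power series in the coefficients of the family, which bounds the
number of zeros of all specializations which do not vanish identically; they do not vanish
identically by the theorem of Kolchin and Ostrowski and a comparison with the real logarithms at
infinity. For `k = 2` the zeros of the power series in two variables are covered by
`O(N ^ ε)` algebraic curves of bounded degree (the determinant method, p-adic); on lines one uses the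
case `k = 1`, on other curves the theorem of Bombieri and Pila. For `k > 2` one uses slices.
-/

set_option autoImplicit false

open Polynomial NumberField
open Pool.Agent.Helper85_Leo (LeopoldtAt)
open Pool.Agent.LPW (spm ExcPt FamM IndOn expo)

namespace Pool.Agent.Results.MP_5f2860_nt.FewExceptions

theorem result :
    -- (1) families with `k ≥ 1` parameters
    (∀ (p : ℕ) [Fact p.Prime] (k n r D : ℕ) (ε : ℝ), 1 ≤ k → 0 < ε → ∃ B : ℝ,
      ∀ (f : (MvPolynomial (Fin k) ℤ)[X]) (u : Fin r → (MvPolynomial (Fin k) ℤ)[X]),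
        FamM n D f u → ∀ A : Set (Fin k → ℤ), IndOn f u A →
        ∀ (lo : Fin k → ℤ) (N : ℕ), 1 ≤ N →
          (({P : Fin k → ℤ | P ∈ A ∧ (∀ i, lo i ≤ P i ∧ P i < lo i + N) ∧
            ExcPt p n (spm f P) (fun i => spm (u i) P)}).ncard : ℝ) ≤
            B * (N : ℝ) ^ expo k ε) ∧
    -- (2) linear families
    (∀ (p : ℕ) [Fact p.Prime] (n : ℕ), ∃ B : ℕ,
      ∀ (P Q : ℤ[X]) (r : ℕ) (g : Fin r → ℤ[X]), P.Monic → P.natDegree = n → Q ≠ 0 →
        Q.natDegree < n → (∀ i, 0 < (g i).natDegree) → (∀ i, g i ∣ Q) →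
        (∀ i, IsCoprime P (g i)) →
        (∀ i l, i ≠ l → IsCoprime ((g i).map (Int.castRingHom ℚ))
          ((g l).map (Int.castRingHom ℚ))) →
        {t : ℤ | ∃ (K : Type) (_ : Field K) (_ : NumberField K) (θ : K),
          aeval θ (P - C t * Q) = 0 ∧ IntermediateField.adjoin ℚ {θ} = ⊤ ∧
          Module.finrank ℚ K = n ∧ Units.rank K ≤ r ∧ ¬ LeopoldtAt K p}.encard ≤ B) ∧
    -- (3) all coefficients as parameters
    (∀ (r₁ r₂ : ℕ), 3 ≤ r₁ + r₂ → ∀ (p : ℕ) [Fact p.Prime] (ε : ℝ), 0 < ε → ∃ B : ℝ,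
      ∀ (lo : Fin r₁ ⊕ Fin r₂ ⊕ Fin r₂ → ℤ) (N : Fin r₁ ⊕ Fin r₂ ⊕ Fin r₂ → ℕ) (M : ℕ),
        1 ≤ M → (∀ q, M ≤ N q) →
        (M : ℝ) ^ (3 / 2 - ε) * (({a : Fin r₁ ⊕ Fin r₂ ⊕ Fin r₂ → ℤ |
          (∀ q, lo q ≤ a q ∧ a q < lo q + N q) ∧
          (∀ i i', i ≠ i' → 6 ≤ |2 * a (.inl i) - 2 * a (.inl i')|) ∧
          (∀ i j, 6 ≤ |2 * a (.inl i) - a (.inr (.inl j))|) ∧
          (∀ j j', j ≠ j' → 6 ≤ |a (.inr (.inl j)) - a (.inr (.inl j'))|) ∧
          (∀ j, 9 ≤ 4 * a (.inr (.inr j)) - a (.inr (.inl j)) ^ 2) ∧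
          ¬ (Irreducible (((∏ i, (X + C (a (.inl i)))) *
                (∏ j, (X ^ 2 + C (a (.inr (.inl j))) * X + C (a (.inr (.inr j))))) - 1 :
                ℤ[X]).map (Int.castRingHom ℚ)) ∧
            ∀ (K : Type) [Field K] [NumberField K] (θ : K),
              IntermediateField.adjoin ℚ {θ} = ⊤ →
              aeval θ ((∏ i, (X + C (a (.inl i)))) *
                (∏ j, (X ^ 2 + C (a (.inr (.inl j))) * X + C (a (.inr (.inr j))))) - 1 : ℤ[X]) = 0 →
              InfinitePlace.nrRealPlaces K = r₁ ∧ InfinitePlace.nrComplexPlaces K = r₂ ∧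
              LeopoldtAt K p)} : Set (Fin r₁ ⊕ Fin r₂ ⊕ Fin r₂ → ℤ)).ncard : ℝ) ≤
          B * ∏ q, (N q : ℝ)) := by
  refine ⟨LPW.H42.genConcl, ?_, ?_⟩
  · intro p _ n
    exact LUB.H86.lin LUB.H61.frk LUB.H42.main p n
  · intro r₁ r₂ h3 p _ ε hε
    obtain ⟨B, hB⟩ := LPW.H42.bx2 r₁ r₂ h3 p ε hε
    refine ⟨B, fun lo N M hM hMN => ?_⟩
    have h0 := hB lo N M hM hMN
    have hpos : 0 < r₁ + 2 * r₂ := by omega
    have hset : {a : Fin r₁ ⊕ Fin r₂ ⊕ Fin r₂ → ℤ |
          (∀ q, lo q ≤ a q ∧ a q < lo q + N q) ∧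
          (∀ i i', i ≠ i' → 6 ≤ |2 * a (.inl i) - 2 * a (.inl i')|) ∧
          (∀ i j, 6 ≤ |2 * a (.inl i) - a (.inr (.inl j))|) ∧
          (∀ j j', j ≠ j' → 6 ≤ |a (.inr (.inl j)) - a (.inr (.inl j'))|) ∧
          (∀ j, 9 ≤ 4 * a (.inr (.inr j)) - a (.inr (.inl j)) ^ 2) ∧
          ¬ (Irreducible (((∏ i, (X + C (a (.inl i)))) *
                (∏ j, (X ^ 2 + C (a (.inr (.inl j))) * X + C (a (.inr (.inr j))))) - 1 :
                ℤ[X]).map (Int.castRingHom ℚ)) ∧
            ∀ (K : Type) [Field K] [NumberField K] (θ : K),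
              IntermediateField.adjoin ℚ {θ} = ⊤ →
              aeval θ ((∏ i, (X + C (a (.inl i)))) *
                (∏ j, (X ^ 2 + C (a (.inr (.inl j))) * X + C (a (.inr (.inr j))))) - 1 : ℤ[X]) = 0 →
              InfinitePlace.nrRealPlaces K = r₁ ∧ InfinitePlace.nrComplexPlaces K = r₂ ∧
              LeopoldtAt K p)} = {a : Helper65_Dens.Ix r₁ r₂ → ℤ |
          (∀ q, lo q ≤ a q ∧ a q < lo q + N q) ∧ Helper65_Dens.Sep a ∧
          ¬ ∀ (K : Type) [Field K] [NumberField K] (θ : K), IntermediateField.adjoin ℚ {θ} = ⊤ →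
            aeval θ (Helper65_Dens.prodPoly a - 1) = 0 → LeopoldtAt K p} := by
      ext a
      constructor
      · rintro ⟨h1, h2, h3, h4, h5, h6⟩
        have hS : Helper65_Dens.Sep a := ⟨h2, h3, h4, h5⟩
        refine ⟨h1, hS, fun hL => h6 ⟨hS.irreducible hpos, ?_⟩⟩
        intro K _ _ θ hgen hroot
        have hs := hS.signature hpos K θ hgen hroot
        exact ⟨hs.2.1, hs.2.2.1, hL K θ hgen hroot⟩
      · rintro ⟨h1, h2, h3⟩
        exact ⟨h1, h2.ll, h2.lq, h2.qq, h2.disc, fun hL => h3 fun K _ _ θ hgen hroot =>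
          (hL.2 K θ hgen hroot).2.2⟩
    rw [hset]
    exact h0

end Pool.Agent.Results.MP_5f2860_nt.FewExceptions
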