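import Pool.Agent.LeoD.AsmT
import Pool.Agent.Helper49_LeoD.Fin

/-!
# Leopoldt's conjecture at 3 in all layers, for at least half of all quadratic extensions

Let `k` be a number field, `N` a set of real places of `k` and `u = #N + r₂(k)`. Among all quadratic
extensions `K / k` which are ramified exactly at the real places in `N`, ordered by the absolute value
of the discriminant, all but at most the proportion `3 ^ (-u) / 2` are such that Leopoldt's
conjecture at 3 goes up from `M` to `K M` for every layer `M` of the cyclotomic `ℤ_3`-extension of
`k`. Consequently at least the proportion `1 / 2` of all totally real quartic fields with a quadratic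
subfield satisfy Leopoldt's conjecture at 3 in all layers of their cyclotomic `ℤ_3`-extension. (In
the other quartic fields with a quadratic subfield Leopoldt's conjecture is known, by the theorem of
Brumer: they are CM fields, or their Galois closure is abelian over an imaginary quadratic field.)

Proof (squads LEOK, LEOG, LEOC, LEOD). Let `K = k(√(3m))`. If Leopoldt's conjecture does not go up in
some layer then it does not go up for a Selmer type group: there is `z` in `K`, not a cube, whose norm
to `k` is a cube, with valuations divisible by 3 outside 3, which is in all completions above 3 a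
cube times a root of unity of 3-power order. It gives a binary cubic form with coefficients in (ideals
of) the ring of integers of `k`, without zeros, of discriminant `-m` (times a constant), with local
conditions at the primes above 3: modulo powers of the prime it lies in an explicit set, or in the
orbit of one form coming from the local torsion. The forms are counted by reduction theory over `k`
(lattice points in the fundamental domain of the cusp, all signatures), with the exact local densities
at all primes, including those above 2 and 3 and for all ideal classes; each form is counted with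
a weight that is bounded below by the number of primitive vectors in an ellipse. The passage to the
quartic fields uses bounds for the class numbers and the numbers of ideals of real quadratic fields,
uniform in the discriminant.

`LeopoldtAt K p`, defined in `Pool/Agent/Helper85_Leo/Defs.lean`, is the statement of the frozen
statement S17123 for the fixed field `K` and prime `p`.
-/

set_option autoImplicit false

open NumberField NumberField.InfinitePlace Module Filter
open Pool.Agent.Helper85_Leo (LeopoldtAt)

namespace Pool.Agent.Results.MP_5f2860_nt.QuadraticExtensions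

open Pool.Agent.LeoD (Qx Q4x)

/-- The quadratic extensions `K` of `k` in an algebraic closure of `k`, such that `N` is the set of
the real places of `k` which ramify in `K` (become complex), with `|disc K| ≤ X`. -/
def Quad (k : Type) [Field k] [NumberField k] (N : Set {w : InfinitePlace k // IsReal w}) (X : ℝ) :
    Set (IntermediateField k (AlgebraicClosure k)) :=
  {K | ∃ _ : NumberField K, finrank k K = 2 ∧
    (∀ w : {w : InfinitePlace k // IsReal w}, w.1.IsUnramifiedIn K ↔ w ∉ N) ∧
    ((discr K).natAbs : ℝ) ≤ X}

/-- Leopoldt's conjecture at 3 goes up from `M` to `L = K M` for all extensions `M` of `k` of degree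
a power of 3 which can be embedded over `k` into `k(ζ)`, `ζ` a root of unity of order a power of 3,
that is for all layers `M` of the cyclotomic `ℤ_3`-extension of `k`.  (For `M = k` it says that it
goes up from `k` to `K`.) -/
def UpCyc (k K : Type) [Field k] [NumberField k] [Field K] [NumberField K] [Algebra k K] : Prop :=
  ∀ (M L : Type) [Field M] [NumberField M] [Field L] [NumberField L] [Algebra k M] [Algebra k L]
    [Algebra K L] [Algebra M L] [IsScalarTower k K L] [IsScalarTower k M L] (n j : ℕ),
    Nonempty (M →ₐ[k] CyclotomicField (3 ^ n) k) → finrank k M = 3 ^ j → finrank M L = 2 →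
    LeopoldtAt M 3 → LeopoldtAt L 3

/-- The totally real quartic fields (in an algebraic closure of `ℚ`), with `|disc K| ≤ X`, which
have a quadratic subfield. -/
def Quartic (X : ℝ) : Set (IntermediateField ℚ (AlgebraicClosure ℚ)) :=
  {K | ∃ _ : NumberField K, finrank ℚ K = 4 ∧ nrComplexPlaces K = 0 ∧ ((discr K).natAbs : ℝ) ≤ X ∧
    ∃ k : IntermediateField ℚ (AlgebraicClosure ℚ), k ≤ K ∧ finrank ℚ k = 2}

/-- Leopoldt's conjecture at 3 for `K M`, for all extensions `M` of `ℚ` of degree a power of 3
contained in the field generated by all roots of unity of 3-power order, that is for all layers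
of the cyclotomic `ℤ_3`-extension of `K`, including `K` itself (`M = ℚ`). -/
def LeoCyc (K : IntermediateField ℚ (AlgebraicClosure ℚ)) : Prop :=
  ∀ (M : IntermediateField ℚ (AlgebraicClosure ℚ)) (j : ℕ) (_ : NumberField ↥(K ⊔ M)),
    M ≤ IntermediateField.adjoin ℚ {ζ | ∃ n : ℕ, ζ ^ 3 ^ n = 1} → finrank ℚ M = 3 ^ j →
    LeopoldtAt ↥(K ⊔ M) 3

theorem result :
    (∀ (k : Type) [Field k] [NumberField k] (N : Set {w : InfinitePlace k // IsReal w}),
      (∀ X : ℝ, (Quad k N X).Finite) ∧
      (∃ c : ℝ, 0 < c ∧ ∀ᶠ X : ℝ in atTop, c * X ≤ ((Quad k N X).ncard : ℝ)) ∧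
      ∀ ε : ℝ, 0 < ε → ∀ᶠ X : ℝ in atTop,
        ({K | K ∈ Quad k N X ∧ ∃ _ : NumberField K, ¬ UpCyc k K}.ncard : ℝ) ≤
          (1 / (2 * 3 ^ (N.ncard + nrComplexPlaces k)) + ε) * ((Quad k N X).ncard : ℝ)) ∧
    (∀ X : ℝ, (Quartic X).Finite) ∧
    (∃ c : ℝ, 0 < c ∧ ∀ᶠ X : ℝ in atTop, c * X ≤ ((Quartic X).ncard : ℝ)) ∧
    ∀ ε : ℝ, 0 < ε → ∀ᶠ X : ℝ in atTop,
      ({K | K ∈ Quartic X ∧ ¬ LeoCyc K}.ncard : ℝ) ≤
        (1 / 2 + ε) * ((Quartic X).ncard : ℝ) := by
  constructor
  · intro k _ _ N
    obtain ⟨ha, hb, hc⟩ := Pool.Agent.LeoD.Asm.thdt k N
    have hQ : ∀ X, Quad k N X = Qx k N X := fun X =>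
      Pool.Agent.LeoD.H49.qx_eq Pool.Agent.LeoD.H90.qua k N X
    simp only [hQ]
    refine ⟨ha, hb, fun ε hε => ?_⟩
    filter_upwards [hc ε hε] with X hX
    refine le_trans ?_ hX
    norm_cast
    apply Set.ncard_le_ncard
    · rintro K ⟨h4, h5, h6⟩
      refine ⟨h4, h5, fun h7 => h6 ?_⟩
      exact h7.cyc
    · exact (ha X).subset fun K hK => hK.1
  · have hQ : ∀ X, Quartic X = Q4x X := fun X => Pool.Agent.LeoD.H49.q4x_eq X
    simp only [hQ]
    exact Pool.Agent.LeoD.Asm.quart

end Pool.Agent.Results.MP_5f2860_nt.QuadraticExtensions
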