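import Pool.Agent.Helper68_LeoT.Asm

/-!
# Leopoldt's conjecture at 3 for many fields of every signature

For every signature `(r₁, r₂)` whose degree `n = r₁ + 2 r₂ > 2` is even or a power of 3 there is
`c > 0` such that for all large `X` at least `c X` pairwise non-isomorphic number fields `K` of
signature `(r₁, r₂)` with `|disc K| ≤ X`, not abelian over `ℚ`, satisfy Leopoldt's conjecture at 3.
If `n = 2 ^ j * 3 ^ a` then moreover all Galois extensions of `K` of 3-power degree unramified
outside 3 satisfy it.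

Proof (squads LEO4, LEOK, LEOG, LEOC, LEOT). The fields are quadratic extensions `k(√(3m))` of a base
field `k` of degree `n / 2`, or cubic extensions (for the powers of 3). If Leopoldt's conjecture at 3
does not go up from `k` to `k(√(3m))` there is an element of `K` of relative norm 1 with valuations
divisible by 3, locally a cube at 3, not a cube, and it gives a binary cubic form over the ring of
integers of `k` without zeros, of discriminant `-m`. These forms are counted by reduction theory
(points of a lattice in the fundamental domain, for all signatures), and there are fewer of them than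
`m`. For the towers one uses the vanishing of the Selmer type groups of all Galois extensions of
3-power degree unramified outside 3, and, for totally real fields of degree `3 ^ a`, one tame prime.

`LeopoldtAt K p`, defined in `Pool/Agent/Helper85_Leo/Defs.lean`, is the statement of the frozen
statement S17123 for the fixed field `K` and prime `p`.
-/

set_option autoImplicit false

open NumberField NumberField.InfinitePlace Module Filter
open Pool.Agent.Helper85_Leo (LeopoldtAt)

namespace Pool.Agent.Results.MP_5f2860_nt.SignatureFamilies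

/-- Leopoldt's conjecture at `3` holds for every Galois extension `E` of `K` of 3-power degree which
is unramified at all primes of `E` not above `3`. -/
def LeopoldtUp3 (K : Type) [Field K] [NumberField K] : Prop :=
  ∀ (E : Type) [Field E] [NumberField E] [Algebra K E] [IsGalois K E] (l : ℕ),
    finrank K E = 3 ^ l →
    (∀ (P : Ideal (𝓞 E)) [P.IsPrime], P ≠ ⊥ → (3 : 𝓞 E) ∉ P → Algebra.IsUnramifiedAt (𝓞 K) P) →
    LeopoldtAt E 3

theorem result (r₁ r₂ : ℕ) (h2 : 2 < r₁ + 2 * r₂)
    (hn : Even (r₁ + 2 * r₂) ∨ ∃ a : ℕ, r₁ + 2 * r₂ = 3 ^ a) :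
    ∃ c : ℝ, 0 < c ∧ ∀ᶠ X : ℝ in atTop,
      ∃ (I : Type) (_ : Fintype I) (K : I → Type) (_ : ∀ i, Field (K i))
        (_ : ∀ i, NumberField (K i)),
        c * X ≤ Fintype.card I ∧ (∀ i i', Nonempty (K i ≃+* K i') → i = i') ∧
        ∀ i, nrRealPlaces (K i) = r₁ ∧ nrComplexPlaces (K i) = r₂ ∧
          ((discr (K i)).natAbs : ℝ) ≤ X ∧ ¬ IsAbelianGalois ℚ (K i) ∧ LeopoldtAt (K i) 3 ∧
          ((∃ j a : ℕ, r₁ + 2 * r₂ = 2 ^ j * 3 ^ a) → LeopoldtUp3 (K i)) := by
  by_cases hja : ∃ j a : ℕ, r₁ + 2 * r₂ = 2 ^ j * 3 ^ a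
  · obtain ⟨j, a, hja⟩ := hja
    obtain ⟨c, hc, h⟩ := Pool.Agent.LeoT.H68.towf_all j a r₁ r₂ (by omega) hja
    refine ⟨c, hc, ?_⟩
    filter_upwards [h] with X hX
    obtain ⟨I, hI, K, hF, hNF, h3, h4, h5⟩ := hX
    refine ⟨I, hI, K, hF, hNF, h3, h4, fun i => ?_⟩
    obtain ⟨h6, h7, h8, h9, -, -, h10⟩ := h5 i
    exact ⟨h6, h7, h8, h9 h2, h10.1, fun _ => h10.2⟩
  · have hev : Even (r₁ + 2 * r₂) := by
      refine hn.resolve_right ?_
      rintro ⟨a, ha⟩
      exact hja ⟨0, a, by rw [pow_zero, one_mul, ha]⟩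
    obtain ⟨t, ht⟩ := hev
    obtain ⟨c, hc, h⟩ := Pool.Agent.LeoC.Asm.headc r₁ r₂ ⟨t - r₂, by omega⟩ (by omega)
    refine ⟨c, hc, ?_⟩
    filter_upwards [h] with X hX
    obtain ⟨I, hI, K, hF, hNF, h3, h4, h5⟩ := hX
    refine ⟨I, hI, K, hF, hNF, h3, h4, fun i => ?_⟩
    obtain ⟨h6, h7, h8, h9, h10⟩ := h5 i
    exact ⟨h6, h7, h8, h9, h10, fun h11 => absurd h11 hja⟩

end Pool.Agent.Results.MP_5f2860_nt.SignatureFamilies
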